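import Pool.Agent.Lib.MP_c7af3c_ag.T2C.IfaceA
import Pool.Agent.Lib.MP_c7af3c_ag.T2.H54.Basic
import Pool.Agent.Lib.MP_c7af3c_ag.EDGE.H19.Refine

/-!
# MP_c7af3c_ag, project T2C, row W2 (helper75)
At most two independent vectors among `x` and the bounded columns. Three bounded columns
independent modulo `x`: `x_i dt` is in `k` for all `i`. Two bounded columns: `c_j = dt(V(A l_j))`
and `x_i c_j - x_j c_i` are in `k`, so `x` is on a line over `k` or all `c_j` are zero.
-/

set_option autoImplicit false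

namespace Pool.Agent.T2C.H75

open MvPolynomial Pool.Agent.Gen Pool.Agent.Sharp Pool.Agent.Edge
open Pool.Agent.T2 (Fk Rac lnf Sizes Sit)

section dtn

variable {Ω : Type} [Field Ω] {n c : ℕ} {d : Fin c → ℕ} (D : DSys Ω n c d)
  (x : Fin (n + 1) → Ω) (j0 : Fin (n + 1))

/-- the determinant of independent vectors of the kernel is not zero -/
theorem dt_ne {s r : ℕ} (h0 : ∀ m, eval x (D.F m) = 0) (hj0 : x j0 = 1)
    (ε : (Unit ⊕ (Fin s ⊕ Fin r)) ⊕ Fin c ≃ Fin (n + 1))
    (η : Fin s → Fin (n + 1) → Ω) (w : Fin r → Fin (n + 1) → Ω)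
    (hli : LinearIndependent Ω (Sum.elim (fun _ : Unit => x) (Sum.elim η w)))
    (hker : ∀ a, Sum.elim (fun _ : Unit => x) (Sum.elim η w) a ∈ KerF D x) :
    dt D x j0 ε η w ≠ 0 := by
  have hne : x j0 ≠ 0 := by rw [hj0]; exact one_ne_zero
  have h1 := li_colU D x h0 (Sum.elim (fun _ : Unit => x) (Sum.elim η w)) hli
    (fun a m => hker a m) (i := j0) hne
  have hli2 : LinearIndependent Ω (fun k a =>
      colU D x (Sum.elim (fun _ : Unit => x) (Sum.elim η w)) j0 k (ε a)) :=
    h1.map' (LinearMap.funLeft Ω Ω ε) (LinearMap.ker_eq_bot.2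
      (LinearMap.funLeft_injective_of_surjective Ω Ω ε ε.surjective))
  unfold dt
  rw [← Matrix.det_transpose]
  have h4 : IsUnit (Matrix.of fun k a =>
      colU D x (Sum.elim (fun _ : Unit => x) (Sum.elim η w)) j0 k (ε a)) :=
    Matrix.linearIndependent_rows_iff_isUnit.1 hli2
  exact ((Matrix.isUnit_iff_isUnit_det _).1 h4).ne_zero

/-- a zero column -/
theorem dt_zero {s r : ℕ} (ε : (Unit ⊕ (Fin s ⊕ Fin r)) ⊕ Fin c ≃ Fin (n + 1))
    (η : Fin s → Fin (n + 1) → Ω) (w : Fin r → Fin (n + 1) → Ω) (b : Fin r) (hb : w b = 0) :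
    dt D x j0 ε η w = 0 := by
  unfold dt
  refine Matrix.det_eq_zero_of_column_eq_zero (Sum.inl (Sum.inr (Sum.inr b))) fun i => ?_
  simp [colU, hb]

theorem lf_j0 (hj0 : x j0 = 1) : lf x j0 j0 = 0 := by
  unfold lf
  rw [hj0, C_1, one_mul, sub_self]

theorem V_j0 (hj0 : x j0 = 1) (A : TP Ω n c) : VT D x (mulT A (lf x j0 j0)) = 0 := by
  rw [lf_j0 x j0 hj0]
  have h : mulT A (0 : MvPolynomial (Fin (n + 1)) Ω) = 0 := by
    funext m
    simp [mulT]
  rw [h, map_zero]

/-- the monomial tuples are over `k` -/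
theorem mu_Tk (k : Subfield Ω) (a : TI n c d) : Tk k d (mu Ω a) := by
  classical
  refine ⟨Edge.H19.mu_adm a, fun m I => ?_⟩
  unfold mu
  by_cases h : m = a.1.1
  · subst h
    rw [Pi.single_eq_same, coeff_monomial]
    split_ifs
    · exact k.one_mem
    · exact k.zero_mem
  · rw [Pi.single_eq_of_ne h, coeff_zero]
    exact k.zero_mem

/-- columns `V(A l)` with `A` a monomial are enough -/
theorem mono_span (E : Submodule Ω (Fin (n + 1) → Ω))
    (h : ∀ (a : TI n c d) (i : Fin (n + 1)), VT D x (mulT (mu Ω a) (lf x j0 i)) ∈ E)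
    (A : TP Ω n c) (hA : Adm d A) (i : Fin (n + 1)) : VT D x (mulT A (lf x j0 i)) ∈ E := by
  have h1 : Submodule.span Ω (Set.range (mu Ω : TI n c d → TP Ω n c)) ≤
      E.comap (Edge.H19.VL D x (lf x j0 i)) := by
    rw [Submodule.span_le]
    rintro _ ⟨a, rfl⟩
    exact h a i
  exact h1 (Edge.H19.adm_span hA)

end dtn

/-- Row W2. -/
theorem w2 : W2Statement := by
  intro hKER hLOC hTAUB _ _ Ω _ _ k Γ _ S n c d D x j0 hn hd hS
  classical
  obtain ⟨hdim, hVG, hspan⟩ := hKER Ω n c d D x j0 hS.hj0 hS.h0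
  have hfr : Module.finrank Ω (KerF D x) = 4 := by omega
  have hxK : x ∈ KerF D x := by
    rw [← hspan]
    exact Submodule.subset_span (Or.inl (Or.inl rfl))
  have hBK : ∀ u, Bc D x k u → u ∈ KerF D x := by
    rintro u (⟨p, q, rfl⟩ | ⟨G, hG, hG0, rfl⟩)
    · rw [← hspan]
      exact Submodule.subset_span (Or.inl (Or.inr ⟨p, q, rfl⟩))
    · exact hVG G (fun m => (hG m).1) hG0
  have hVK : ∀ (A : TP Ω n c) (i : Fin (n + 1)), Adm d A →
      VT D x (mulT A (lf x j0 i)) ∈ KerF D x := by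
    intro A i hA
    rw [← hspan]
    exact Submodule.subset_span (Or.inr ⟨A, i, hA, rfl⟩)
  have hx0 : x ≠ 0 := by
    intro h
    have := hS.hj0
    rw [h] at this
    exact zero_ne_one this
  by_contra hlt
  push Not at hlt
  -- a family which spans all bounded columns
  have key : ∀ (N : ℕ) (K : Fin N → Fin (n + 1) → Ω), N ≤ 2 →
      x ∈ Submodule.span Ω (Set.range K) →
      ∃ u, Bc D x k u ∧ u ∉ Submodule.span Ω (Set.range K) := by
    intro N K hN hxs
    by_contra hall
    push Not at hall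
    have h1 : Tb D x k ≤ Submodule.span Ω (Set.range K) := by
      unfold Tb
      rw [Submodule.span_le]
      rintro _ (rfl | hu)
      · exact hxs
      · exact hall _ hu
    have h2 := Submodule.finrank_mono h1
    have h3 := finrank_range_le_card (R := Ω) K
    rw [Fintype.card_fin] at h3
    change Module.finrank Ω (Submodule.span Ω (Set.range K)) ≤ N at h3
    omega
  have hli1 : LinearIndependent Ω ![x] := by
    rw [linearIndependent_unique_iff]
    exact hx0
  obtain ⟨u1, hb1, h1⟩ := key 1 ![x] (by omega) (Submodule.subset_span ⟨0, rfl⟩)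
  have hli2 : LinearIndependent Ω ![u1, x] := linearIndependent_finCons.2 ⟨hli1, h1⟩
  obtain ⟨u2, hb2, h2⟩ := key 2 ![u1, x] le_rfl (Submodule.subset_span ⟨1, rfl⟩)
  have hli3 : LinearIndependent Ω ![u2, u1, x] := linearIndependent_finCons.2 ⟨hli2, h2⟩
  by_cases hA : ∃ u, Bc D x k u ∧ u ∉ Submodule.span Ω (Set.range ![u2, u1, x])
  · -- three independent bounded columns
    obtain ⟨u3, hb3, h3⟩ := hA
    have hli4 : LinearIndependent Ω ![u3, u2, u1, x] :=
      linearIndependent_finCons.2 ⟨hli3, h3⟩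
    let η : Fin 3 → Fin (n + 1) → Ω := ![u3, u2, u1]
    let e : Unit ⊕ (Fin 3 ⊕ Fin 0) → Fin 4 :=
      Sum.elim (fun _ => 3) (Sum.elim ![0, 1, 2] Fin.elim0)
    have he : Function.Injective e := by decide
    have hfam : ∀ w : Fin 0 → Fin (n + 1) → Ω,
        Sum.elim (fun _ : Unit => x) (Sum.elim η w) = ![u3, u2, u1, x] ∘ e := by
      intro w
      funext a
      rcases a with a | a | a
      · rfl
      · fin_cases a <;> rfl
      · exact a.elim0
    have ε : (Unit ⊕ (Fin 3 ⊕ Fin 0)) ⊕ Fin c ≃ Fin (n + 1) :=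
      Fintype.equivOfCardEq (by simp; omega)
    have hBc : ∀ a, Bc D x k (η a) := by
      intro a
      fin_cases a
      · exact hb3
      · exact hb2
      · exact hb1
    have hne : ∀ w, dt D x j0 ε η w ≠ 0 := by
      intro w
      refine dt_ne D x j0 hS.h0 hS.hj0 ε η w ?_ ?_
      · rw [hfam w]
        exact hli4.comp e he
      · rintro (a | a | a)
        · exact hxK
        · exact hBK _ (hBc a)
        · exact a.elim0
    have hT := hTAUB hLOC Ω k Γ S n c d D x j0 hn hd hS 3 0 ε η hBc 0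
      ⟨fun m I hI => absurd (by simp) hI, fun m I => by simp [k.zero_mem]⟩
    have hT2 : ∀ i, x i * dt D x j0 ε η Fin.elim0 ∈ k := by
      intro i
      have h := hT (fun _ => i)
      unfold tauB at h
      rw [Fin.sum_univ_one] at h
      have h5 : (fun b : Fin 0 => VT D x (mulT (0 : TP Ω n c) (lf x j0 i))) =
          (Fin.elim0 : Fin 0 → Fin (n + 1) → Ω) := Subsingleton.elim _ _
      rw [h5] at h
      simpa using h
    have hdk : dt D x j0 ε η Fin.elim0 ∈ k := by
      have := hT2 j0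
      rwa [hS.hj0, one_mul] at this
    obtain ⟨i, hi⟩ := hS.xk
    apply hi
    have h5 : x i = x i * dt D x j0 ε η Fin.elim0 * (dt D x j0 ε η Fin.elim0)⁻¹ := by
      rw [mul_assoc, mul_inv_cancel₀ (hne _), mul_one]
    rw [h5]
    exact k.mul_mem (hT2 i) (k.inv_mem hdk)
  · push Not at hA
    -- a column `V(A l_j)`, `A` a monomial
    have hB : ∃ (a : TI n c d) (j : Fin (n + 1)), VT D x (mulT (mu Ω a) (lf x j0 j)) ∉
        Submodule.span Ω (Set.range ![u2, u1, x]) := by
      by_contra hall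
      push Not at hall
      have h5 : KerF D x ≤ Submodule.span Ω (Set.range ![u2, u1, x]) := by
        rw [← hspan, Submodule.span_le]
        rintro _ ((rfl | ⟨p, q, rfl⟩) | ⟨A, i, hAd, rfl⟩)
        · exact Submodule.subset_span ⟨2, rfl⟩
        · exact hA _ (Or.inl ⟨p, q, rfl⟩)
        · exact mono_span D x j0 _ hall A hAd i
      have h6 := Submodule.finrank_mono h5
      have h7 := finrank_range_le_card (R := Ω) ![u2, u1, x]
      rw [Fintype.card_fin] at h7
      change Module.finrank Ω (Submodule.span Ω (Set.range ![u2, u1, x])) ≤ 3 at h7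
      omega
    obtain ⟨a, j, hj⟩ := hB
    have hli4 : LinearIndependent Ω ![VT D x (mulT (mu Ω a) (lf x j0 j)), u2, u1, x] :=
      linearIndependent_finCons.2 ⟨hli3, hj⟩
    let η : Fin 2 → Fin (n + 1) → Ω := ![u2, u1]
    let e : Unit ⊕ (Fin 2 ⊕ Fin 1) → Fin 4 :=
      Sum.elim (fun _ => 3) (Sum.elim ![1, 2] fun _ => 0)
    have he : Function.Injective e := by decide
    have hfam : Sum.elim (fun _ : Unit => x)
        (Sum.elim η fun _ : Fin 1 => VT D x (mulT (mu Ω a) (lf x j0 j))) =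
          ![VT D x (mulT (mu Ω a) (lf x j0 j)), u2, u1, x] ∘ e := by
      funext a
      rcases a with a | a | a
      · rfl
      · fin_cases a <;> rfl
      · rfl
    have ε : (Unit ⊕ (Fin 2 ⊕ Fin 1)) ⊕ Fin c ≃ Fin (n + 1) :=
      Fintype.equivOfCardEq (by simp; omega)
    have hBc : ∀ a, Bc D x k (η a) := by
      intro a
      fin_cases a
      · exact hb2
      · exact hb1
    obtain ⟨cc, hcc⟩ : ∃ cc : Fin (n + 1) → Ω, ∀ i, cc i =
      dt D x j0 ε η fun _ => VT D x (mulT (mu Ω a) (lf x j0 i)) := ⟨_, fun i => rfl⟩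
    have hne : cc j ≠ 0 := by
      rw [hcc]
      refine dt_ne D x j0 hS.h0 hS.hj0 ε η _ ?_ ?_
      · rw [hfam]
        exact hli4.comp e he
      · rintro (b | b | b)
        · exact hxK
        · exact hBK _ (hBc b)
        · exact hVK _ _ (Edge.H19.mu_adm a)
    have hT := hTAUB hLOC Ω k Γ S n c d D x j0 hn hd hS 2 1 ε η hBc (mu Ω a) (mu_Tk k a)
    have hT2 : ∀ i i', x i * cc i' - x i' * cc i ∈ k := by
      intro i i'
      have h := hT ![i, i']
      unfold tauB at h
      rw [Fin.sum_univ_two] at h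
      have h5 : ∀ b : Fin 1, (![i, i'] : Fin 2 → Fin (n + 1)) ((0 : Fin 2).succAbove b) = i' := by
        intro b
        fin_cases b
        rfl
      have h6 : ∀ b : Fin 1, (![i, i'] : Fin 2 → Fin (n + 1)) ((1 : Fin 2).succAbove b) = i := by
        intro b
        fin_cases b
        rfl
      simp only [h5, h6, ← hcc] at h
      have h7 : x i * cc i' - x i' * cc i = (-1) ^ ((0 : Fin 2) : ℕ) *
          x ((![i, i'] : Fin 2 → Fin (n + 1)) 0) * cc i' +
          (-1) ^ ((1 : Fin 2) : ℕ) * x ((![i, i'] : Fin 2 → Fin (n + 1)) 1) * cc i := by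
        simp
        ring
      rw [h7]
      exact h
    have hcj0 : cc j0 = 0 := by
      rw [hcc]
      exact dt_zero D x j0 ε η _ 0 (V_j0 D x j0 hS.hj0 _)
    have hck : ∀ i, cc i ∈ k := by
      intro i
      have h := hT2 j0 i
      rwa [hS.hj0, one_mul, hcj0, mul_zero, sub_zero] at h
    refine hS.nl (fun i => x i * cc j - x j * cc i) cc (fun i => hT2 i j) hck (cc j)⁻¹
      ((cc j)⁻¹ * x j) ?_
    funext i
    simp only [Pi.add_apply, Pi.smul_apply, smul_eq_mul]
    field_simp
    ring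

end Pool.Agent.T2C.H75
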